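import Pool.Agent.H9.K2.H6
import Pool.Agent.H5.K2.CT3
import Pool.Agent.H27.STK.CDS
import Pool.Agent.H56.KAF.Defs

/-!
# The field (h6) of theorem PLV for one slope

If the slopes of two samples of a line are close to each other with small probability only, then
for most values of any function `v` of the first sample the slope of the second sample is not close
to one number (with a fixed probability, given `v`).
-/

set_option autoImplicit false

namespace Pool.RPL

open Finset Real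
open Pool.Agent.H49.Ent Pool.Agent.H32.Dense Pool.STK Pool.KA Pool.KSAT Pool.K2S

section

variable {Ω S V : Type} [Fintype Ω]

theorem cpy_mul (P : Ω → ℝ) (g : Ω → S) (x y : Ω) :
    cpy P g (x, y) = P x * Pool.Agent.H49.Ent.cond P g (g x) y := by
  classical
  unfold cpy Pool.Agent.H49.Ent.cond
  by_cases h : g x = g y
  · simp only
    rw [if_pos h, if_pos h.symm]
    ring
  · simp only
    rw [if_neg h, if_neg (Ne.symm h), mul_zero]

theorem Pe_mono_pos {P : Ω → ℝ} (hP : ∀ ω, 0 ≤ P ω) {A B : Ω → Prop}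
    (h : ∀ ω, 0 < P ω → A ω → B ω) : Pe P A ≤ Pe P B := by
  classical
  rw [Pe_eq, Pe_eq]
  refine Finset.sum_le_sum fun x _ => ?_
  rcases (hP x).eq_or_lt with h0 | h0
  · rw [← h0]
    simp
  · by_cases hA : A x
    · rw [if_pos hA, if_pos (h x h0 hA)]
    · rw [if_neg hA]
      split_ifs
      · exact hP x
      · exact le_rfl

theorem Pe_or_add {P : Ω → ℝ} (hP : ∀ ω, 0 ≤ P ω) (A B : Ω → Prop) :
    Pe P (fun ω => A ω ∨ B ω) ≤ Pe P A + Pe P B := by
  classical
  rw [Pe_eq, Pe_eq, Pe_eq, ← Finset.sum_add_distrib]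
  refine Finset.sum_le_sum fun x _ => ?_
  by_cases hA : A x <;> by_cases hB : B x <;> simp [hA, hB, hP x]

open Classical in
theorem Pe_cpy_split (P : Ω → ℝ) (g : Ω → S) (A : Ω → Prop) (E : Ω → Ω → Prop) :
    Pe (cpy P g) (fun w => A w.1 ∧ E w.1 w.2) =
      ∑ x, if A x then P x * Pe (Pool.Agent.H49.Ent.cond P g (g x)) (E x) else 0 := by
  rw [Pe_eq, Fintype.sum_prod_type]
  refine Finset.sum_congr rfl fun x _ => ?_
  by_cases hA : A x
  · rw [if_pos hA, Pe_eq, Finset.mul_sum]
    refine Finset.sum_congr rfl fun y _ => ?_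
    simp only [hA, true_and]
    by_cases hE : E x y
    · rw [if_pos hE, if_pos hE, cpy_mul]
    · rw [if_neg hE, if_neg hE, mul_zero]
  · rw [if_neg hA]
    refine Finset.sum_eq_zero fun y _ => ?_
    rw [if_neg (fun h => hA h.1)]

theorem sum_fib {P : Ω → ℝ} (hP : IsLaw P) (g : Ω → S) {x : Ω} (hx : 0 < P x) :
    ∑ y, Pool.Agent.H49.Ent.cond P g (g x) y = 1 :=
  (Pool.STK.CDS.isLaw_cond hP g (law_pos hP.nonneg g hx)).sum_one

open Classical in
/-- The tower property. -/
theorem tower {P : Ω → ℝ} (hP : IsLaw P) (g : Ω → S) (φ : Ω → ℝ) (E : Ω → Ω → Prop)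
    (hφ : ∀ x y, g x = g y → φ x = φ y) (hE : ∀ x y, g x = g y → ∀ z, (E x z ↔ E y z)) :
    ∑ x, P x * φ x * Pe (Pool.Agent.H49.Ent.cond P g (g x)) (E x) =
      ∑ y, if E y y then P y * φ y else 0 := by
  have h1 : ∀ x, P x * φ x * Pe (Pool.Agent.H49.Ent.cond P g (g x)) (E x) =
      ∑ y, if E x y then cpy P g (x, y) * φ x else 0 := by
    intro x
    rw [Pe_eq, Finset.mul_sum]
    refine Finset.sum_congr rfl fun y _ => ?_
    by_cases h : E x y
    · rw [if_pos h, if_pos h, cpy_mul]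
      ring
    · rw [if_neg h, if_neg h, mul_zero]
  rw [Finset.sum_congr rfl fun x _ => h1 x, Finset.sum_comm]
  refine Finset.sum_congr rfl fun y _ => ?_
  have h2 : ∀ x, (if E x y then cpy P g (x, y) * φ x else 0) =
      (if E y y then P y * φ y else 0) * Pool.Agent.H49.Ent.cond P g (g y) x := by
    intro x
    by_cases hg : g x = g y
    · have e1 : cpy P g (x, y) = P y * Pool.Agent.H49.Ent.cond P g (g y) x := by
        rw [← cpy_mul, ← CT3.cpy_swap P g (y, x)]
        rfl
      by_cases h : E x y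
      · rw [if_pos h, if_pos ((hE x y hg y).1 h), e1, hφ x y hg]
        ring
      · rw [if_neg h, if_neg (fun h' => h ((hE x y hg y).2 h')), zero_mul]
    · have e1 : cpy P g (x, y) = 0 := by
        unfold cpy
        exact if_neg hg
      have e2 : Pool.Agent.H49.Ent.cond P g (g y) x = 0 := by
        unfold Pool.Agent.H49.Ent.cond
        exact if_neg hg
      rw [e1, e2, zero_mul, mul_zero, ite_self]
  rw [Finset.sum_congr rfl fun x _ => h2 x, ← Finset.mul_sum]
  rcases (hP.nonneg y).eq_or_lt with h0 | h0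
  · rw [← h0]
    simp
  · rw [sum_fib hP g h0, mul_one]

/-- The slope is almost constant with a fixed probability given the line. -/
def BadL (P : Ω → ℝ) (g : Ω → S) (Sv : Ω → ℝ) (dl e : ℝ) (x : Ω) : Prop :=
  ∃ s : ℝ, e < Pe (Pool.Agent.H49.Ent.cond P g (g x)) (fun y => |Sv y - s| < dl / 2)

/-- The lines with an almost constant slope are rare. -/
theorem badL_le {P : Ω → ℝ} (hP : IsLaw P) (g : Ω → S) (Sv : Ω → ℝ) {dl e eps : ℝ}
    (he : 0 < e) (hcl : Pe (cpy P g) (fun x => |Sv x.1 - Sv x.2| < dl) ≤ eps) :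
    e ^ 2 * Pe P (BadL P g Sv dl e) ≤ eps := by
  classical
  obtain ⟨s, hs⟩ : ∃ s : S → ℝ, ∀ x, BadL P g Sv dl e x →
      e < Pe (Pool.Agent.H49.Ent.cond P g (g x)) (fun y => |Sv y - s (g x)| < dl / 2) := by
    refine ⟨fun l => if h : ∃ s : ℝ, e < Pe (Pool.Agent.H49.Ent.cond P g l)
      (fun y => |Sv y - s| < dl / 2) then h.choose else 0, fun x hx => ?_⟩
    have hx' : ∃ s : ℝ, e < Pe (Pool.Agent.H49.Ent.cond P g (g x))
      (fun y => |Sv y - s| < dl / 2) := hx
    beta_reduce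
    rw [dif_pos hx']
    exact hx'.choose_spec
  obtain ⟨B, hB⟩ : ∃ B : Ω → Prop, B = BadL P g Sv dl e := ⟨_, rfl⟩
  have hBg : ∀ x y, g x = g y → (B x ↔ B y) := by
    intro x y h
    rw [hB]
    unfold BadL
    rw [h]
  obtain ⟨φ, hφ⟩ : ∃ φ : Ω → ℝ, φ = fun x => if B x then 1 else 0 := ⟨_, rfl⟩
  have hφg : ∀ x y, g x = g y → φ x = φ y := by
    intro x y h
    rw [hφ]
    beta_reduce
    by_cases h1 : B x
    · rw [if_pos h1, if_pos ((hBg x y h).1 h1)]
    · rw [if_neg h1, if_neg (fun h2 => h1 ((hBg x y h).2 h2))]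
  obtain ⟨E, hE⟩ : ∃ E : Ω → Ω → Prop, E = fun x y => |Sv y - s (g x)| < dl / 2 := ⟨_, rfl⟩
  have hEg : ∀ x y, g x = g y → ∀ z, (E x z ↔ E y z) := by
    intro x y h z
    rw [hE]
    simp only [h]
  have hlow : ∀ x, B x → e < Pe (Pool.Agent.H49.Ent.cond P g (g x)) (E x) := by
    intro x hx
    rw [hB] at hx
    rw [hE]
    exact hs x hx
  -- first step
  have h1 : Pe (cpy P g) (fun w => (B w.1 ∧ E w.1 w.1) ∧ E w.1 w.2) ≤ eps := by
    refine le_trans (Pe_mono_pos (cpy_nn hP.nonneg g) fun w _ hw => ?_) hcl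
    obtain ⟨⟨-, h2⟩, h3⟩ := hw
    rw [hE] at h2 h3
    rw [abs_lt] at h2 h3 ⊢
    constructor <;> linarith
  rw [Pe_cpy_split P g (fun x => B x ∧ E x x) E] at h1
  have h3 : e * ∑ x, (if E x x then P x * φ x else 0) ≤
      ∑ x, @ite ℝ (B x ∧ E x x) (Classical.propDecidable _)
        (P x * Pe (Pool.Agent.H49.Ent.cond P g (g x)) (E x)) 0 := by
    rw [Finset.mul_sum]
    refine Finset.sum_le_sum fun x _ => ?_
    by_cases hEx : E x x
    · by_cases hBx : B x
      · rw [if_pos hEx, if_pos ⟨hBx, hEx⟩]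
        have : φ x = 1 := by rw [hφ]; simp [hBx]
        rw [this]
        have h4 := mul_le_mul_of_nonneg_left (hlow x hBx).le (hP.nonneg x)
        linarith
      · rw [if_pos hEx, if_neg (fun h => hBx h.1)]
        have : φ x = 0 := by rw [hφ]; simp [hBx]
        rw [this]
        simp
    · rw [if_neg hEx, if_neg (fun h => hEx h.2), mul_zero]
  rw [← tower hP g φ E hφg hEg] at h3
  have h4 : e * Pe P B ≤ ∑ x, P x * φ x * Pe (Pool.Agent.H49.Ent.cond P g (g x)) (E x) := by
    rw [Pe_eq, Finset.mul_sum]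
    refine Finset.sum_le_sum fun x _ => ?_
    by_cases hBx : B x
    · rw [if_pos hBx]
      have : φ x = 1 := by rw [hφ]; simp [hBx]
      rw [this]
      have h5 := mul_le_mul_of_nonneg_left (hlow x hBx).le (hP.nonneg x)
      linarith
    · rw [if_neg hBx]
      have : φ x = 0 := by rw [hφ]; simp [hBx]
      rw [this]
      simp
  have h5 := mul_le_mul_of_nonneg_left h4 he.le
  rw [← hB]
  calc e ^ 2 * Pe P B = e * (e * Pe P B) := by ring
    _ ≤ _ := h5
    _ ≤ _ := h3
    _ ≤ _ := h1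

/-- The first sample has the law `P`. -/
theorem Pe_cpy_fst {P : Ω → ℝ} (hP : IsLaw P) (g : Ω → S) (A : Ω → Prop) :
    Pe (cpy P g) (fun w => A w.1) = Pe P A := by
  classical
  have h := Pe_cpy_split P g A (fun _ _ => True)
  have e1 : Pe (cpy P g) (fun w => A w.1) = Pe (cpy P g) (fun w => A w.1 ∧ True) := by
    congr 1
    funext w
    rw [and_true]
  rw [e1, h, Pe_eq]
  refine Finset.sum_congr rfl fun x _ => ?_
  by_cases hA : A x
  · rw [if_pos hA, if_pos hA]
    rcases (hP.nonneg x).eq_or_lt with h0 | h0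
    · rw [← h0, zero_mul]
    · have : Pe (Pool.Agent.H49.Ent.cond P g (g x)) (fun _ => True) = 1 := by
        rw [Pe_eq]
        simp only [if_true]
        exact sum_fib hP g h0
      rw [this, mul_one]
  · rw [if_neg hA, if_neg hA]

/-- Probabilities given a value. -/
theorem Pe_cond_eq {W : Ω → ℝ} (f : Ω → V) (v : V) (A : Ω → Prop) :
    Pe (Pool.Agent.H49.Ent.cond W f v) A = Pe W (fun ω => f ω = v ∧ A ω) / law W f v := by
  classical
  rw [Pe_eq, Pe_eq, Finset.sum_div]
  refine Finset.sum_congr rfl fun x _ => ?_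
  unfold Pool.Agent.H49.Ent.cond
  by_cases h : f x = v
  · by_cases hA : A x
    · rw [if_pos hA, if_pos h, if_pos ⟨h, hA⟩]
    · rw [if_neg hA, if_neg (fun h' => hA h'.2), zero_div]
  · rw [if_neg h, ite_self, if_neg (fun h' => h h'.1), zero_div]

/-- Markov's inequality for conditional probabilities. -/
theorem Pe_markov {P : Ω → ℝ} (hP : IsLaw P) (v : Ω → V) (B : Ω → Prop) (e : ℝ) :
    e * Pe P (fun ω => e < Pe (Pool.Agent.H49.Ent.cond P v (v ω)) B) ≤ Pe P B := by
  classical
  have h1 := tower hP v (fun _ => (1 : ℝ)) (fun _ y => B y) (fun _ _ _ => rfl)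
    (fun _ _ _ _ => Iff.rfl)
  simp only [mul_one] at h1
  rw [Pe_eq P B, ← h1, Pe_eq, Finset.mul_sum]
  refine Finset.sum_le_sum fun x _ => ?_
  by_cases h : e < Pe (Pool.Agent.H49.Ent.cond P v (v x)) B
  · rw [if_pos h, mul_comm]
    exact mul_le_mul_of_nonneg_left h.le (hP.nonneg x)
  · rw [if_neg h, mul_zero]
    refine mul_nonneg (hP.nonneg x) ?_
    rw [Pe_eq]
    refine Finset.sum_nonneg fun y _ => ?_
    split_ifs
    · exact cond_nonneg hP.nonneg v (v x) y
    · exact le_rfl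

/-- **The field (h6)** of theorem PLV, `c = 1`. -/
theorem h6one {P : Ω → ℝ} (hP : IsLaw P) (g : Ω → S) (Sv : Ω → ℝ) (v : Ω → V)
    {K dl eps eps1 th : ℝ} (hK : ∀ ω, 0 < P ω → |Sv ω| ≤ K)
    (hcl : Pe (cpy P g) (fun x => |Sv x.1 - Sv x.2| < dl) ≤ eps) (he1 : 0 < eps1)
    (heps : eps ≤ eps1 ^ 4 / 16) (hth : 0 < th) (hth4 : th ≤ 1 / 4)
    (hdl : 8 * (K + 1) * th ≤ dl) :
    Pool.KAF.Pr (cpy P g) {w | ∃ n : Fin (1 + 1) → ℝ, (∀ i, |n i| ≤ 1) ∧ (∃ i, |n i| = 1) ∧
      eps1 < Pool.KAF.Pr (Pool.Agent.H49.Ent.cond (cpy P g) (fun w => v w.1) (v w.1))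
        {w' | |n 0 + ∑ i : Fin 1, n i.succ * Sv w'.2| < th}} ≤ eps1 := by
  classical
  obtain ⟨B, hB⟩ : ∃ B : Ω → Prop, B = BadL P g Sv dl (eps1 / 2) := ⟨_, rfl⟩
  have hK0 : 0 ≤ K := by
    obtain ⟨ω, -, hω⟩ : ∃ ω ∈ (univ : Finset Ω), 0 < P ω := by
      by_contra hcon
      push Not at hcon
      have : ∑ ω, P ω ≤ 0 := Finset.sum_nonpos fun ω h => hcon ω h
      rw [hP.sum_one] at this
      linarith
    exact (abs_nonneg _).trans (hK ω hω)
  have hPB : Pe P B ≤ eps1 ^ 2 / 4 := by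
    have h1 := badL_le hP g Sv (half_pos he1) hcl
    rw [← hB] at h1
    have h2 : (eps1 / 2) ^ 2 * Pe P B ≤ (eps1 / 2) ^ 2 * (eps1 ^ 2 / 4) := by
      refine (h1.trans heps).trans (le_of_eq ?_)
      ring
    exact le_of_mul_le_mul_left h2 (by positivity)
  -- the inclusion
  have key : ∀ w, 0 < cpy P g w → (∃ n : Fin (1 + 1) → ℝ, (∀ i, |n i| ≤ 1) ∧ (∃ i, |n i| = 1) ∧
      eps1 < Pool.KAF.Pr (Pool.Agent.H49.Ent.cond (cpy P g) (fun w => v w.1) (v w.1))
        {w' | |n 0 + ∑ i : Fin 1, n i.succ * Sv w'.2| < th}) →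
      eps1 / 2 < Pe (Pool.Agent.H49.Ent.cond P v (v w.1)) B := by
    rintro w hw ⟨n, hn1, hn2, hn3⟩
    obtain ⟨W, hW⟩ : ∃ W, W = cpy P g := ⟨_, rfl⟩
    obtain ⟨a, ha⟩ : ∃ a, a = v w.1 := ⟨_, rfl⟩
    rw [← hW, ← ha] at hn3
    rw [← ha]
    have hWn : ∀ w', 0 ≤ W w' := by rw [hW]; exact cpy_nn hP.nonneg g
    -- the near event
    obtain ⟨s, hs⟩ : ∃ s : ℝ, ∀ w' : Ω × Ω, 0 < W w' →
        |n 0 + ∑ i : Fin 1, n i.succ * Sv w'.2| < th → |Sv w'.2 - s| < dl / 2 := by
      refine ⟨-(n 0 / n 1), fun w' hw' h => ?_⟩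
      rw [Fin.sum_univ_one] at h
      have hn : n (Fin.succ 0) = n 1 := rfl
      rw [hn] at h
      have hSw : |Sv w'.2| ≤ K := by
        refine hK _ ?_
        rcases (hP.nonneg w'.2).eq_or_lt with h0 | h0
        · exfalso
          rw [hW] at hw'
          unfold cpy at hw'
          rw [← h0] at hw'
          simp at hw'
        · exact h0
      rcases lt_or_ge (|n 1| * (2 * (K + 1))) 1 with hsm | hbg
      · -- `n 0` is the large coefficient
        exfalso
        have h0 : |n 0| = 1 := by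
          obtain ⟨i, hi⟩ := hn2
          by_cases hi0 : i = 0
          · rw [← hi0]
            exact hi
          · have hi1 : i = 1 := by
              have := i.isLt
              refine Fin.ext ?_
              have h9 : (i : ℕ) ≠ 0 := fun h => hi0 (Fin.ext h)
              have h10 : ((1 : Fin (1 + 1)) : ℕ) = 1 := rfl
              omega
            rw [hi1] at hi
            rw [hi] at hsm
            linarith
        have h2 : |n 1 * Sv w'.2| ≤ 1 / 2 := by
          rw [abs_mul]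
          have h3 : |n 1| * |Sv w'.2| ≤ |n 1| * (K + 1) :=
            mul_le_mul_of_nonneg_left (by linarith) (abs_nonneg _)
          linarith
        have h3 : |n 0| ≤ |n 0 + n 1 * Sv w'.2| + |n 1 * Sv w'.2| := by
          have e : n 0 = (n 0 + n 1 * Sv w'.2) - n 1 * Sv w'.2 := by ring
          calc |n 0| = |(n 0 + n 1 * Sv w'.2) - n 1 * Sv w'.2| := by rw [← e]
            _ ≤ _ := abs_sub _ _
        linarith
      · have hn0 : 0 < |n 1| := by
          by_contra hcon
          push Not at hcon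
          have : |n 1| = 0 := le_antisymm hcon (abs_nonneg _)
          rw [this] at hbg
          linarith
        have e : n 0 + n 1 * Sv w'.2 = n 1 * (Sv w'.2 - -(n 0 / n 1)) := by
          have : n 1 ≠ 0 := abs_pos.1 hn0
          field_simp
          ring
        rw [e, abs_mul] at h
        by_contra hcon
        push Not at hcon
        have h2 : 4 * (K + 1) * th ≤ |Sv w'.2 - -(n 0 / n 1)| := by linarith
        have h3 : |n 1| * (4 * (K + 1) * th) < th :=
          lt_of_le_of_lt (mul_le_mul_of_nonneg_left h2 hn0.le) h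
        nlinarith
    -- the law given the value
    have hPa : 0 < law P v a := by
      rw [ha]
      refine law_pos hP.nonneg v ?_
      rcases (hP.nonneg w.1).eq_or_lt with h0 | h0
      · exfalso
        unfold cpy at hw
        rw [← h0] at hw
        simp at hw
      · exact h0
    have hlawa : law W (fun w => v w.1) a = law P v a := by
      have h1 := Pe_cpy_fst hP g (fun x => v x = a)
      rw [hW]
      have e1 : ∀ (Ω' : Type) [Fintype Ω'] (q : Ω' → ℝ) (f : Ω' → V),
          law q f a = Pe q (fun ω => f ω = a) := by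
        intro Ω' _ q f
        rw [Pe_eq]
        unfold law
        rfl
      rw [e1, e1]
      exact h1
    -- splitting
    have h1 : eps1 < Pe (Pool.Agent.H49.Ent.cond W (fun w => v w.1) a)
        (fun w' => B w'.1 ∨ (¬ B w'.1 ∧ |Sv w'.2 - s| < dl / 2)) := by
      refine lt_of_lt_of_le hn3 ?_
      refine Pe_mono_pos (cond_nonneg hWn _ _) fun w' hw' h => ?_
      by_cases hb : B w'.1
      · exact Or.inl hb
      · refine Or.inr ⟨hb, hs w' ?_ h⟩
        have := (cond_pos_iff hWn (fun w => v w.1) a w').1 hw'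
        exact this.1
    have h2 := h1.trans_le (Pe_or_add (cond_nonneg hWn _ _) _ _)
    have h3 : Pe (Pool.Agent.H49.Ent.cond W (fun w => v w.1) a) (fun w' => B w'.1) =
        Pe (Pool.Agent.H49.Ent.cond P v a) B := by
      rw [Pe_cond_eq, Pe_cond_eq, hlawa, hW]
      congr 1
      exact Pe_cpy_fst hP g (fun x => v x = a ∧ B x)
    have h4 : Pe (Pool.Agent.H49.Ent.cond W (fun w => v w.1) a)
        (fun w' => ¬ B w'.1 ∧ |Sv w'.2 - s| < dl / 2) ≤ eps1 / 2 := by
      rw [Pe_cond_eq, hlawa, div_le_iff₀ hPa, hW]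
      have e1 : Pe (cpy P g) (fun w => v w.1 = a ∧ ¬ B w.1 ∧ |Sv w.2 - s| < dl / 2) =
          Pe (cpy P g) (fun w => (v w.1 = a ∧ ¬ B w.1) ∧ |Sv w.2 - s| < dl / 2) := by
        congr 1
        funext w
        rw [and_assoc]
      rw [e1, Pe_cpy_split P g (fun x => v x = a ∧ ¬ B x) (fun _ y => |Sv y - s| < dl / 2)]
      have e2 : law P v a = ∑ x, if v x = a then P x else 0 := by
        unfold law
        rfl
      rw [e2, Finset.mul_sum]
      refine Finset.sum_le_sum fun x _ => ?_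
      by_cases hx : v x = a
      · rw [if_pos hx]
        by_cases hb : B x
        · rw [if_neg (fun h => h.2 hb)]
          exact mul_nonneg (by linarith) (hP.nonneg x)
        · rw [if_pos ⟨hx, hb⟩, mul_comm]
          refine mul_le_mul_of_nonneg_right ?_ (hP.nonneg x)
          rw [hB] at hb
          unfold BadL at hb
          push Not at hb
          exact hb s
      · rw [if_neg hx, if_neg (fun h => hx h.1), mul_zero]
    rw [h3] at h2
    linarith
  -- conclusion
  have h1 : Pool.KAF.Pr (cpy P g) {w | ∃ n : Fin (1 + 1) → ℝ, (∀ i, |n i| ≤ 1) ∧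
      (∃ i, |n i| = 1) ∧
      eps1 < Pool.KAF.Pr (Pool.Agent.H49.Ent.cond (cpy P g) (fun w => v w.1) (v w.1))
        {w' | |n 0 + ∑ i : Fin 1, n i.succ * Sv w'.2| < th}} ≤
      Pe (cpy P g) (fun w => eps1 / 2 < Pe (Pool.Agent.H49.Ent.cond P v (v w.1)) B) :=
    Pe_mono_pos (cpy_nn hP.nonneg g) fun w hw h => key w hw h
  have h2 := Pe_cpy_fst hP g (fun x => eps1 / 2 < Pe (Pool.Agent.H49.Ent.cond P v (v x)) B)
  have h3 := Pe_markov hP v B (eps1 / 2)
  rw [← h2] at h3
  have h4 : eps1 / 2 * Pe (cpy P g) (fun w => eps1 / 2 < Pe (Pool.Agent.H49.Ent.cond P v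
      (v w.1)) B) ≤ eps1 / 2 * (eps1 / 2) := by
    refine (h3.trans hPB).trans (le_of_eq ?_)
    ring
  have h5 := le_of_mul_le_mul_left h4 (half_pos he1)
  linarith

end

end Pool.RPL
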